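import Pool.Agent.helper57_BR.Core

/-!
# Coding of the elements by finite objects (seat helper57)

To every element `s` we attach a subset `D s` of the countable set `ℕ × List (List ℕ × ℕ)`, monotone in `s`, such
that for every point `F` and `s ∉ F` there is `t ∈ F` with `D s ∩ D t = ∅`.
-/

set_option autoImplicit false

namespace Pool.Agent.H57BR

/-- an injective code of the lines -/
def code : L → List ℕ → ℕ
  | .root => fun _ => 0
  | .cst ℓ k => fun p => match p with
    | [] => 2 * k + 1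
    | 0 :: q => code ℓ q
    | _ :: _ => 0
  | .seq f g => fun p => match p with
    | [] => 2
    | n :: q => Nat.pair (g n) (code (f n) q)

theorem code_inj : ∀ ℓ ρ : L, code ℓ = code ρ → ℓ = ρ := by
  intro ℓ
  induction ℓ with
  | root =>
    intro ρ h
    have h0 := congrFun h []
    cases ρ with
    | root => rfl
    | cst ρ k => simp [code] at h0
    | seq f g => simp [code] at h0
  | cst ℓ k ih =>
    intro ρ h
    have h0 := congrFun h []
    cases ρ with
    | root => simp [code] at h0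
    | cst ρ m =>
      simp only [code] at h0
      have h1 : ℓ = ρ := ih ρ (by
        funext q
        have := congrFun h (0 :: q)
        simpa only [code] using this)
      have h2 : k = m := by omega
      rw [h1, h2]
    | seq f g => simp only [code] at h0; omega
  | seq f g ih =>
    intro ρ h
    have h0 := congrFun h []
    cases ρ with
    | root => simp [code] at h0
    | cst ρ m => simp only [code] at h0; omega
    | seq f' g' =>
      have h1 : ∀ n q, g n = g' n ∧ code (f n) q = code (f' n) q := by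
        intro n q
        have := congrFun h (n :: q)
        simp only [code] at this
        exact Nat.pair_eq_pair.mp this
      have h2 : g = g' := funext fun n => (h1 n []).1
      have h3 : f = f' := funext fun n => ih n _ (funext fun q => (h1 n q).2)
      rw [h2, h3]

/-- the code of a line up to `n` -/
def app (n : ℕ) (ℓ : L) : List ℕ :=
  (List.range n).map fun i => code ℓ (Denumerable.ofNat (List ℕ) i)

theorem app_ne {ℓ ρ : L} {p : List ℕ} (h : code ℓ p ≠ code ρ p) {n : ℕ}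
    (hn : Encodable.encode p < n) : app n ℓ ≠ app n ρ := by
  intro h'
  rw [app, app, List.map_inj_left] at h'
  have := h' (Encodable.encode p) (List.mem_range.mpr hn)
  rw [Denumerable.ofNat_encode] at this
  exact h this

theorem app_sep {ℓ ρ : L} (h : ℓ ≠ ρ) : ∃ N, ∀ n ≥ N, app n ℓ ≠ app n ρ := by
  have h1 : code ℓ ≠ code ρ := fun h' => h (code_inj _ _ h')
  obtain ⟨p, hp⟩ := Function.ne_iff.mp h1
  exact ⟨Encodable.encode p + 1, fun n hn => app_ne hp (by omega)⟩

/-- precision at which lines of the two kinds are distinguished -/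
def N1 : ℕ := Encodable.encode ([] : List ℕ) + 1

theorem app_seq_cst {f : ℕ → L} {g : ℕ → ℕ} {ℓ : L} {k n : ℕ} (hn : N1 ≤ n) :
    app n (L.seq f g) ≠ app n (L.cst ℓ k) :=
  app_ne (p := []) (by simp only [code]; omega) hn

/-- finitely many ancestors -/
theorem app_sep_anc (v : E) (ρ : L) :
    ∃ N, ∀ n ≥ N, ∀ a, Anc v a → app n a.1 = app n ρ → a.1 = ρ := by
  obtain ⟨ℓ, i⟩ := v
  induction ℓ generalizing i with
  | root =>
    by_cases h : L.root = ρ
    · exact ⟨0, fun n _ a ha _ => by cases ha; exact h⟩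
    · obtain ⟨N, hN⟩ := app_sep h
      exact ⟨N, fun n hn a ha h' => by cases ha; exact absurd h' (hN n hn)⟩
  | cst ℓ k ih =>
    obtain ⟨M, hM⟩ := ih k
    by_cases h : L.cst ℓ k = ρ
    · refine ⟨M, fun n hn a ha h' => ?_⟩
      cases ha with
      | refl => exact h
      | cst _ _ _ _ ha => exact hM n hn a ha h'
    · obtain ⟨N, hN⟩ := app_sep h
      refine ⟨max M N, fun n hn a ha h' => ?_⟩
      cases ha with
      | refl => exact absurd h' (hN n (le_of_max_le_right hn))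
      | cst _ _ _ _ ha => exact hM n (le_of_max_le_left hn) a ha h'
  | seq f g ih =>
    obtain ⟨M, hM⟩ := ih i (g i)
    by_cases h : L.seq f g = ρ
    · refine ⟨M, fun n hn a ha h' => ?_⟩
      cases ha with
      | refl => exact h
      | seq _ _ _ _ ha => exact hM n hn a ha h'
    · obtain ⟨N, hN⟩ := app_sep h
      refine ⟨max M N, fun n hn a ha h' => ?_⟩
      cases ha with
      | refl => exact absurd h' (hN n (le_of_max_le_right hn))
      | seq _ _ _ _ ha => exact hM n (le_of_max_le_left hn) a ha h'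

/-- ancestors at a given depth exist -/
theorem exists_anc (v : E) {d : ℕ} (hd : d ≤ dep v.1 v.2) : ∃ a, Anc v a ∧ dep a.1 a.2 = d := by
  obtain ⟨ℓ, i⟩ := v
  induction ℓ generalizing i with
  | root => exact ⟨_, Anc.refl _, by simp only [dep] at hd ⊢; omega⟩
  | cst ℓ k ih =>
    simp only [dep] at hd
    rcases Nat.lt_or_ge (dep ℓ k) d with h | h
    · exact ⟨_, Anc.refl _, by simp only [dep]; omega⟩
    · obtain ⟨a, ha, h'⟩ := ih k h
      exact ⟨a, Anc.cst _ _ _ _ ha, h'⟩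
  | seq f g ih =>
    simp only [dep] at hd
    rcases Nat.lt_or_ge (dep (f i) (g i)) d with h | h
    · exact ⟨_, Anc.refl _, by simp only [dep]; omega⟩
    · obtain ⟨a, ha, h'⟩ := ih i (g i) h
      exact ⟨a, Anc.seq _ _ _ _ ha, h'⟩

/-- and are unique -/
theorem Anc.eq_of_dep {v a b : E} (ha : Anc v a) (hb : Anc v b) (h : dep a.1 a.2 = dep b.1 b.2) :
    a = b := by
  rcases ha.lin hb with h' | h'
  · exact (h'.dep_eq h.le).symm
  · exact h'.dep_eq h.ge

theorem Anc.of_dep_le {v a b : E} (ha : Anc v a) (hb : Anc v b)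
    (h : dep b.1 b.2 ≤ dep a.1 a.2) : Anc a b := by
  rcases ha.lin hb with h' | h'
  · exact h'
  · rw [h'.dep_eq h]; exact Anc.refl _

/-- compatibility with precision `n` -/
def Cmp (n : ℕ) (v w : E) : Prop := ∀ a b, Anc v a → Anc w b → dep a.1 a.2 = dep b.1 b.2 →
  app n a.1 = app n b.1 ∧ a.2 = b.2

theorem Cmp.symm {n : ℕ} {v w : E} (h : Cmp n v w) : Cmp n w v :=
  fun a b ha hb hab => ⟨(h b a hb ha hab.symm).1.symm, (h b a hb ha hab.symm).2.symm⟩

/-- if the other element is not deep then it is an ancestor -/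
theorem cmp_bounded {z : E} (ρ : L) : ∃ N, ∀ n ≥ N, ∀ y, Anc y z → ∀ i, Cmp n y (ρ, i) →
    dep ρ i ≤ dep z.1 z.2 → Anc z (ρ, i) := by
  obtain ⟨N, hN⟩ := app_sep_anc z ρ
  refine ⟨N, fun n hn y hy i hc hd => ?_⟩
  obtain ⟨a, ha, h1⟩ := exists_anc z hd
  obtain ⟨h2, h3⟩ := hc a (ρ, i) (hy.trans ha) (Anc.refl _) h1
  have h4 := hN n hn a ha h2
  have h5 : a = (ρ, i) := Prod.ext h4 h3
  rw [← h5]; exact ha

/-- proper ancestors of the elements of a line are determined by their depth -/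
theorem proper_uniq {ρ : L} (hg : Good ρ) {i j : ℕ} {a b : E} (ha : Anc (ρ, i) a) (hb : Anc (ρ, j) b)
    (ha' : a.1 ≠ ρ) (hb' : b.1 ≠ ρ) (h : dep a.1 a.2 = dep b.1 b.2) : a = b := by
  have key : ∀ i j a, i ≤ j → Anc (ρ, i) a → a.1 ≠ ρ → Anc (ρ, j) a := by
    intro i j a hij ha ha'
    cases ha with
    | refl => exact absurd rfl ha'
    | cst _ _ _ _ ha => exact Anc.cst _ _ _ _ ha
    | seq f g _ _ ha => exact Anc.seq _ _ _ _ ((good_chain hg hij).trans ha)
  have h1 := key i (max i j) a (le_max_left _ _) ha ha'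
  have h2 := key j (max i j) b (le_max_right _ _) hb hb'
  exact h1.eq_of_dep h2 h

/-- chains of ancestors -/
theorem chain_anc {z : ℕ → E} (h : ∀ n, Anc (z (n + 1)) (z n)) {m n : ℕ} (hmn : m ≤ n) :
    Anc (z n) (z m) := by
  induction n, hmn using Nat.le_induction with
  | base => exact Anc.refl _
  | succ n _ ih => exact (h n).trans ih

/-- the key lemma: compatible threads have the same ancestors -/
theorem key {z : ℕ → E} (hz : ∀ n, Anc (z (n + 1)) (z n)) (hzd : ∀ n, n ≤ dep (z n).1 (z n).2)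
    {f : ℕ → L} {g : ℕ → ℕ} (hg : Good (L.seq f g)) {c : ℕ}
    (H : ∀ k, ∃ y n i, Anc y (z k) ∧ k ≤ n ∧ c ≤ i ∧ Cmp n y (L.seq f g, i))
    (hs : ∀ k i, c ≤ i → ¬ Anc (z k) (L.seq f g, i)) :
    ∀ m i a b, Anc (z m) a → Anc (f i, g i) b → dep a.1 a.2 = dep b.1 b.2 → a = b := by
  intro m i a b ha hb hab
  by_contra hne
  -- precision separating `a` and `b`
  obtain ⟨N, hN⟩ : ∃ N, ∀ n ≥ N, ¬ (app n a.1 = app n b.1 ∧ a.2 = b.2) := by
    by_cases h1 : a.1 = b.1
    · exact ⟨0, fun n _ h2 => hne (Prod.ext h1 h2.2)⟩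
    · obtain ⟨N, hN⟩ := app_sep h1
      exact ⟨N, fun n hn h2 => hN n hn h2.1⟩
  let k0 := max m (dep (f i) (g i) + 1)
  obtain ⟨N', hN'⟩ := cmp_bounded (z := z k0) (L.seq f g)
  obtain ⟨y, n, j, hy, hkn, hcj, hc⟩ := H (max k0 (max N N'))
  have hn0 : N ≤ n := le_trans (le_trans (le_max_left N N') (le_max_right _ _)) hkn
  have hn1 : N' ≤ n := le_trans (le_trans (le_max_right N N') (le_max_right _ _)) hkn
  have hyz : Anc y (z k0) := hy.trans (chain_anc hz (le_max_left _ _))
  rcases Nat.lt_or_ge j i with hji | hij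
  · have h1 : dep (L.seq f g) j ≤ dep (z k0).1 (z k0).2 := by
      have h2 := (good_chain hg hji.le).dep_le
      have h3 := hzd k0
      have h4 : dep (f i) (g i) + 1 ≤ k0 := le_max_right _ _
      simp only [dep] at h2 ⊢
      omega
    exact hs _ _ hcj (hN' n hn1 y hyz j hc h1)
  · have h1 : Anc y a := hyz.trans ((chain_anc hz (le_max_left _ _)).trans ha)
    have h2 : Anc (L.seq f g, j) b := Anc.seq _ _ _ _ ((good_chain hg hij).trans hb)
    exact hN n hn0 (hc a b h1 h2 hab)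

theorem dep_seq {f : ℕ → L} {g : ℕ → ℕ} (hg : Good (L.seq f g)) (n : ℕ) :
    n ≤ dep (f n) (g n) := by
  induction n with
  | zero => exact Nat.zero_le _
  | succ n ih =>
    obtain ⟨j, _, h⟩ := hg.2 n
    have := h.dep_le
    simp only [dep] at this
    omega

/-- disjointness for paths -/
theorem dis_path {u : ℕ → E} (hu : Path u) {ρ : L} (hρ : Good ρ) {c : ℕ}
    (hs : ∀ k i, c ≤ i → ¬ Anc (u k) (ρ, i)) :
    ∃ k, ∀ y, Anc y (u k) → ∀ n ≥ k, ∀ i ≥ c, ¬ Cmp n y (ρ, i) := by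
  by_contra hcon
  push Not at hcon
  have hch : ∀ n, Anc (u (n + 1)) (u n) := fun n => hu.anc (Nat.le_succ n)
  cases ρ with
  | root =>
    obtain ⟨N, hN⟩ := cmp_bounded (z := u 0) L.root
    obtain ⟨y, hy, n, hn, i, hi, hc⟩ := hcon N
    exact hs _ _ hi (hN n hn y (hy.trans (hu.anc (Nat.zero_le _))) i hc (Nat.zero_le _))
  | cst κ m =>
    let k0 := dep κ m + 1
    obtain ⟨N, hN⟩ := cmp_bounded (z := u k0) (L.cst κ m)
    obtain ⟨y, hy, n, hn, i, hi, hc⟩ := hcon (max k0 N)
    refine hs _ _ hi (hN n (le_trans (le_max_right _ _) hn) y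
      (hy.trans (hu.anc (le_max_left _ _))) i hc ?_)
    exact (hu.dep k0)
  | seq f g =>
    have h1 := key hch hu.dep hρ (c := c)
      (fun k => by
        obtain ⟨y, hy, n, hn, i, hi, hc⟩ := hcon k
        exact ⟨y, n, i, hy, hn, hi, hc⟩) hs
    refine path_not_sub_seq hu hρ fun n => ?_
    obtain ⟨M, hM⟩ : ∃ M, M = dep (u n).1 (u n).2 := ⟨_, rfl⟩
    refine ⟨M, ?_⟩
    obtain ⟨b, hb, h2⟩ := exists_anc (f M, g M) (dep_seq hρ M)
    rw [h1 n M (u n) b (Anc.refl _) hb (hM.symm.trans h2.symm)]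
    exact hb

/-- disjointness for lines -/
theorem dis_line {τ : L} (hτ : Good τ) {ρ : L} (hρ : Good ρ) {c : ℕ}
    (hs : ∀ k i, c ≤ i → ¬ Anc (τ, k) (ρ, i)) :
    ∃ k, ∀ j ≥ k, ∀ n ≥ j, ∀ i ≥ c, ¬ Cmp n (τ, j) (ρ, i) := by
  by_contra hcon
  push Not at hcon
  have hne : τ ≠ ρ := by
    rintro rfl
    exact hs c c le_rfl (Anc.refl _)
  obtain ⟨N0, hN0⟩ := app_sep hne
  -- short threads
  have short : ∀ D : ℕ, (∀ j, dep τ j = D) →
      (∃ N, ∀ n ≥ N, ∀ j a, Anc (τ, j) a → a.1 ≠ τ → app n a.1 = app n ρ → a.1 = ρ) → False := by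
    intro D hD ⟨N, hN⟩
    -- the possible partner of `(τ, j)`
    by_cases hb : ∃ i b, Anc (ρ, i) b ∧ b.1 ≠ ρ ∧ dep b.1 b.2 = D
    · obtain ⟨i0, b, hb1, hb2, hb3⟩ := hb
      obtain ⟨j, hj, n, hn, i, hi, hc⟩ := hcon (max (b.2 + 1) (max N N0))
      have e1 : b.2 < j := lt_of_lt_of_le (Nat.lt_succ_self _) (le_trans (le_max_left _ _) hj)
      have e2 : N ≤ n := le_trans (le_trans (le_max_left N N0) (le_max_right _ _)) (hj.le.trans hn)
      have e3 : N0 ≤ n := le_trans (le_trans (le_max_right N N0) (le_max_right _ _)) (hj.le.trans hn)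
      rcases lt_trichotomy (dep ρ i) D with h | h | h
      · obtain ⟨a, ha, h1⟩ := exists_anc (τ, j) (d := dep ρ i) (by simp only [hD]; exact h.le)
        obtain ⟨h2, h3⟩ := hc a (ρ, i) ha (Anc.refl _) h1
        have h4 : a.1 ≠ τ := by
          intro h5
          have h6 : dep a.1 a.2 = D := by rw [h5]; exact hD _
          omega
        have h5 := hN n e2 j a ha h4 h2
        have h6 : a = (ρ, i) := Prod.ext h5 h3
        rw [h6] at ha
        exact hs _ _ hi ha
      · exact hN0 n e3 (hc (τ, j) (ρ, i) (Anc.refl _) (Anc.refl _) (by simp only [hD, h])).1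
      · obtain ⟨b', hb', h1⟩ := exists_anc (ρ, i) (d := D) (by simp only; exact h.le)
        have h2 : b'.1 ≠ ρ := by
          intro h3
          rcases hb'.sub with h4 | h4
          · rw [h4] at h1; simp only at h1; omega
          · rw [h3] at h4; exact sub_irrefl _ h4
        have h3 := proper_uniq hρ hb' hb1 h2 hb2 (h1.trans hb3.symm)
        have h4 := (hc (τ, j) b' (Anc.refl _) hb' (by simp only [hD, h1])).2
        rw [h3] at h4
        simp only at h4
        omega
    · obtain ⟨j, hj, n, hn, i, hi, hc⟩ := hcon (max N N0)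
      have e2 : N ≤ n := le_trans (le_max_left _ _) (hj.le.trans hn)
      have e3 : N0 ≤ n := le_trans (le_max_right _ _) (hj.le.trans hn)
      rcases lt_trichotomy (dep ρ i) D with h | h | h
      · obtain ⟨a, ha, h1⟩ := exists_anc (τ, j) (d := dep ρ i) (by simp only [hD]; exact h.le)
        obtain ⟨h2, h3⟩ := hc a (ρ, i) ha (Anc.refl _) h1
        have h4 : a.1 ≠ τ := by
          intro h5
          have h6 : dep a.1 a.2 = D := by rw [h5]; exact hD _
          omega
        have h5 := hN n e2 j a ha h4 h2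
        have h6 : a = (ρ, i) := Prod.ext h5 h3
        rw [h6] at ha
        exact hs _ _ hi ha
      · exact hN0 n e3 (hc (τ, j) (ρ, i) (Anc.refl _) (Anc.refl _) (by simp only [hD, h])).1
      · obtain ⟨b', hb', h1⟩ := exists_anc (ρ, i) (d := D) (by simp only; exact h.le)
        refine hb ⟨i, b', hb', ?_, h1⟩
        intro h3
        rcases hb'.sub with h4 | h4
        · rw [h4] at h1; simp only at h1; omega
        · rw [h3] at h4; exact sub_irrefl _ h4
  cases τ with
  | root =>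
    refine short 0 (fun _ => rfl) ⟨0, fun n _ j a ha ha' _ => ?_⟩
    cases ha
    exact absurd rfl ha'
  | cst κ m =>
    obtain ⟨N, hN⟩ := app_sep_anc (κ, m) ρ
    refine short (dep κ m + 1) (fun _ => rfl) ⟨N, fun n hn j a ha ha' h => ?_⟩
    cases ha with
    | refl => exact absurd rfl ha'
    | cst _ _ _ _ ha => exact hN n hn a ha h
  | seq f' g' =>
    have hch : ∀ n, Anc (f' (n + 1), g' (n + 1)) (f' n, g' n) := fun n => good_chain hτ (Nat.le_succ n)
    have hs' : ∀ k i, c ≤ i → ¬ Anc (f' k, g' k) (ρ, i) := fun k i hi h =>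
      hs k i hi (Anc.seq _ _ _ _ h)
    have hy : ∀ j k, k ≤ j → Anc (L.seq f' g', j) (f' k, g' k) := fun j k hjk =>
      Anc.seq _ _ _ _ (good_chain hτ hjk)
    cases ρ with
    | root =>
      obtain ⟨N, hN⟩ := cmp_bounded (z := (f' 0, g' 0)) L.root
      obtain ⟨j, hj, n, hn, i, hi, hc⟩ := hcon N
      exact hs' _ _ hi (hN n (hj.le.trans hn) _ (hy j 0 (Nat.zero_le _)) i hc (Nat.zero_le _))
    | cst κ m =>
      let k0 := dep κ m + 1
      obtain ⟨N, hN⟩ := cmp_bounded (z := (f' k0, g' k0)) (L.cst κ m)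
      obtain ⟨j, hj, n, hn, i, hi, hc⟩ := hcon (max k0 N)
      exact hs' _ _ hi (hN n ((le_max_right _ _).trans (hj.le.trans hn)) _
        (hy j k0 ((le_max_left _ _).trans hj)) i hc (dep_seq hτ k0))
    | seq f g =>
      have h1 := key (z := fun n => (f' n, g' n)) hch (dep_seq hτ) hρ (c := c)
        (fun k => by
          obtain ⟨j, hj, n, hn, i, hi, hc⟩ := hcon k
          exact ⟨_, n, i, hy j k hj, hj.le.trans hn, hi, hc⟩) hs'
      obtain ⟨j, hj, n, hn, i, hi, hc⟩ := hcon (max N0 N1)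
      have e1 : N0 ≤ n := le_trans (le_max_left _ _) (hj.le.trans hn)
      have e2 : N1 ≤ n := le_trans (le_max_right _ _) (hj.le.trans hn)
      rcases lt_trichotomy (dep (f' j) (g' j)) (dep (f i) (g i)) with h | h | h
      · -- the partner of `(τ, j)` is in a line over an element
        obtain ⟨b, hb, h2⟩ := exists_anc (f i, g i) (d := dep (f' j) (g' j) + 1) h
        obtain ⟨a, ha1, ha2⟩ := hτ.2 j
        have h3 := h1 (j + 1) i _ b ha2 hb (by simp only [dep]; exact h2.symm)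
        have h4 := (hc (L.seq f' g', j) b (Anc.refl _) (Anc.seq _ _ _ _ hb)
          (by simp only [dep]; exact h2.symm)).1
        rw [← h3] at h4
        exact app_seq_cst e2 h4
      · exact hN0 n e1 (hc (L.seq f' g', j) (L.seq f g, i) (Anc.refl _) (Anc.refl _)
          (by simp only [dep, h])).1
      · obtain ⟨a, ha, h2⟩ := exists_anc (f' j, g' j) (d := dep (f i) (g i) + 1) h
        obtain ⟨b, hb1, hb2⟩ := hρ.2 i
        have h3 := h1 j (i + 1) a _ ha hb2 (by simp only [dep]; exact h2)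
        have h4 := (hc a (L.seq f g, i) (Anc.seq _ _ _ _ ha) (Anc.refl _)
          (by simp only [dep]; exact h2)).1
        rw [h3] at h4
        exact app_seq_cst e2 h4.symm

/-- the countable set of codes -/
abbrev Cd : Type := ℕ × List (List ℕ × ℕ)

/-- the set of codes attached to an element -/
def D (s : E) : Set Cd := {d | ∃ j, s.2 ≤ j ∧ ∀ a, Anc (s.1, j) a → dep a.1 a.2 ≤ d.1 ∧ a.2 ≤ d.1 ∧
  d.2[dep a.1 a.2]? = some (app d.1 a.1, a.2)}

theorem D_mono {v s : E} (hv : Good v.1) (h : Le v s) : D v ⊆ D s := by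
  rintro ⟨n, h'⟩ ⟨j, hj, h1⟩
  obtain ⟨a, ha, h2⟩ := h
  obtain ⟨b, hb, h3⟩ := desc hv hj h2
  exact ⟨b, ha.trans hb, fun e he => h1 e (h3.trans he)⟩

theorem exists_list {α : Type*} (φ : E → α) (v : E) : ∃ h : List α, h.length = dep v.1 v.2 + 1 ∧
    ∀ a, Anc v a → h[dep a.1 a.2]? = some (φ a) := by
  obtain ⟨ℓ, i⟩ := v
  induction ℓ generalizing i with
  | root =>
    refine ⟨[φ (L.root, i)], rfl, fun a ha => ?_⟩
    cases ha
    rfl
  | cst ℓ k ih =>
    obtain ⟨h, h1, h2⟩ := ih k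
    refine ⟨h ++ [φ (L.cst ℓ k, i)], by simp [h1, dep], fun a ha => ?_⟩
    cases ha with
    | refl =>
      simp only [dep]
      rw [List.getElem?_append_right (by rw [h1]), h1]
      simp
    | cst _ _ _ _ ha =>
      have h3 := ha.dep_le
      rw [List.getElem?_append_left (by rw [h1]; exact Nat.lt_succ_of_le h3)]
      exact h2 a ha
  | seq f g ih =>
    obtain ⟨h, h1, h2⟩ := ih i (g i)
    refine ⟨h ++ [φ (L.seq f g, i)], by simp [h1, dep], fun a ha => ?_⟩
    cases ha with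
    | refl =>
      simp only [dep]
      rw [List.getElem?_append_right (by rw [h1]), h1]
      simp
    | seq _ _ _ _ ha =>
      have h3 := ha.dep_le
      rw [List.getElem?_append_left (by rw [h1]; exact Nat.lt_succ_of_le h3)]
      exact h2 a ha

theorem exists_bound (v : E) : ∃ n, ∀ a, Anc v a → dep a.1 a.2 ≤ n ∧ a.2 ≤ n := by
  obtain ⟨h, h1, h2⟩ := exists_list (fun a : E => a.2) v
  refine ⟨max (dep v.1 v.2) h.sum, fun a ha => ⟨ha.dep_le.trans (le_max_left _ _), ?_⟩⟩
  exact (List.single_le_sum (by simp) _ (List.mem_of_getElem? (h2 a ha))).trans (le_max_right _ _)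

theorem D_nonempty (s : E) : (D s).Nonempty := by
  obtain ⟨n, hn⟩ := exists_bound s
  obtain ⟨h, _, h2⟩ := exists_list (fun a : E => (app n a.1, a.2)) s
  exact ⟨(n, h), s.2, le_rfl, fun a ha => ⟨(hn a ha).1, (hn a ha).2, h2 a ha⟩⟩

theorem D_cmp {v s : E} {d : Cd} (hv : d ∈ D v) (hs : d ∈ D s) :
    ∃ j i, v.2 ≤ j ∧ s.2 ≤ i ∧ j ≤ d.1 ∧ dep v.1 j ≤ d.1 ∧ Cmp d.1 (v.1, j) (s.1, i) := by
  obtain ⟨j, hj, h1⟩ := hv
  obtain ⟨i, hi, h2⟩ := hs
  refine ⟨j, i, hj, hi, (h1 _ (Anc.refl _)).2.1, (h1 _ (Anc.refl _)).1, fun a b ha hb hab => ?_⟩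
  have h3 := (h1 a ha).2.2
  have h4 := (h2 b hb).2.2
  rw [hab, h4] at h3
  have h5 := Option.some.inj h3
  exact ⟨(congrArg Prod.fst h5).symm, (congrArg Prod.snd h5).symm⟩

/-- the separation property -/
theorem D_sep {F : Set E} (hF : IsPt F) {s : E} (hs : Good s.1) (hsF : s ∉ F) :
    ∃ t ∈ F, D t ∩ D s = ∅ := by
  rcases hF with ⟨τ, hτ, rfl⟩ | ⟨u, hu, rfl⟩
  · obtain ⟨k, hk⟩ := dis_line hτ (ρ := s.1) hs (c := s.2)
      (fun k i hi h => hsF ⟨k, i, hi, h⟩)
    refine ⟨(τ, k), ⟨k, Le.refl _⟩, Set.eq_empty_iff_forall_notMem.mpr fun d ⟨h1, h2⟩ => ?_⟩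
    obtain ⟨j, i, hj, hi, hjd, _, hc⟩ := D_cmp h1 h2
    exact hk j hj _ hjd i hi hc
  · obtain ⟨k, hk⟩ := dis_path hu (ρ := s.1) hs (c := s.2)
      (fun k i hi h => hsF ⟨k, i, hi, h⟩)
    refine ⟨u (k + 1), ⟨k + 1, Le.refl _⟩,
      Set.eq_empty_iff_forall_notMem.mpr fun d ⟨h1, h2⟩ => ?_⟩
    obtain ⟨j, i, hj, hi, _, hjd, hc⟩ := D_cmp h1 h2
    have h3 : Anc ((u (k + 1)).1, j) (u k) := hu.anc_of_le ⟨j, hj, Anc.refl _⟩
    refine hk _ h3 d.1 ?_ i hi hc
    have h4 := h3.dep_le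
    have h5 := hu.dep k
    simp only at h4
    omega

/-- the sets `D t`, `t ∈ F`, have empty intersection -/
theorem D_inter {F : Set E} (hF : IsPt F) (d : Cd) : ∃ t ∈ F, d ∉ D t := by
  rcases hF with ⟨τ, hτ, rfl⟩ | ⟨u, hu, rfl⟩
  · refine ⟨(τ, d.1 + 1), ⟨d.1 + 1, Le.refl _⟩, ?_⟩
    rintro ⟨j, hj, h⟩
    have := (h _ (Anc.refl _)).2.1
    simp only at hj this
    omega
  · refine ⟨u (d.1 + 1), ⟨d.1 + 1, Le.refl _⟩, ?_⟩
    rintro ⟨j, hj, h⟩
    have h3 : Anc ((u (d.1 + 1)).1, j) (u d.1) := hu.anc_of_le ⟨j, hj, Anc.refl _⟩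
    have h4 := (h _ (Anc.refl _)).1
    obtain ⟨f, g, i, h5, h6⟩ := hu.2 d.1
    have h7 := hu.dep (d.1)
    have h8 := h3.dep_le
    rcases h3.sub with h9 | h9
    · rw [h5, h6] at h9
      have h10 := congrArg Prod.fst h9
      simp only at h10
      have h11 := sub_seq f g i
      rw [h10] at h11
      exact sub_irrefl _ h11
    · have h12 : dep (u d.1).1 (u d.1).2 ≠ dep (u (d.1 + 1)).1 j := by
        intro h13
        have h14 := h3.dep_eq h13.ge
        rw [h14] at h9
        exact sub_irrefl _ h9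
      simp only at h4 h8
      omega

end Pool.Agent.H57BR
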