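import Pool.Agent.helper57_BR.Code

/-!
# The combinatorial form of non-resolvability (seat helper57)

`Inv c`: the colouring `c` of the elements has a true element late in every good line, and is not constantly
true on any path.  Such colourings do not exist.
-/

set_option autoImplicit false

namespace Pool.Agent.H57BR

/-- one step down along true elements -/
def Step (c : E → Prop) (t v : E) : Prop :=
  Good t.1 ∧ c t ∧ c v ∧ ∃ f g i, t = (L.seq f g, i) ∧ v = (f i, g i)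

theorem step_wf {c : E → Prop} (hV : ∀ u, Path u → ∃ n, ¬ c (u n)) : WellFounded (Step c) := by
  rw [wellFounded_iff_isEmpty_descending_chain]
  refine ⟨fun ⟨u, hu⟩ => ?_⟩
  have hp : Path u := by
    refine ⟨fun n => ?_, fun n => ?_⟩
    · obtain ⟨h1, _, _, f, g, i, h2, h3⟩ := hu n
      rw [h3]
      rw [h2] at h1
      exact h1.1 i
    · obtain ⟨_, _, _, f, g, i, h2, h3⟩ := hu n
      exact ⟨f, g, i, h2, h3⟩
  obtain ⟨n, hn⟩ := hV u hp
  exact hn (hu n).2.2.1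

/-- the main combinatorial lemma -/
theorem no_colouring (c : E → Prop) (hH : ∀ ℓ, Good ℓ → ∀ k, ∃ i, k ≤ i ∧ c (ℓ, i))
    (hV : ∀ u, Path u → ∃ n, ¬ c (u n)) : False := by
  classical
  have hwf := step_wf hV
  -- a minimal element
  have pick : ∀ S : Set E, S.Nonempty → ∃ v ∈ S, ∀ t ∈ S, ¬ Step c t v := fun S hS =>
    ⟨hwf.min S hS, hwf.min_mem S hS, fun t ht => hwf.not_lt_min S ht⟩
  have next : ∀ v : {v : E // Good v.1 ∧ c v}, ∃ w : {v : E // Good v.1 ∧ c v},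
      Le w.1 (L.cst v.1.1 v.1.2, 1) ∧
        ∀ t : E, Good t.1 → c t → Le t (L.cst v.1.1 v.1.2, 1) → ¬ Step c t w.1 := by
    rintro ⟨v, hv, hc⟩
    obtain ⟨i, hi, hci⟩ := hH (L.cst v.1 v.2) hv 1
    obtain ⟨w, hw, hmin⟩ := pick {t : E | Good t.1 ∧ c t ∧ Le t (L.cst v.1 v.2, 1)}
      ⟨(L.cst v.1 v.2, i), hv, hci, le_line _ hi⟩
    exact ⟨⟨w, hw.1, hw.2.1⟩, hw.2.2, fun t h1 h2 h3 => hmin t ⟨h1, h2, h3⟩⟩
  choose nx hnx1 hnx2 using next
  obtain ⟨i0, _, hi0⟩ := hH L.root trivial 0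
  obtain ⟨w0, hw0, hmin0⟩ := pick {t : E | Good t.1 ∧ c t} ⟨(L.root, i0), trivial, hi0⟩
  let w : ℕ → {v : E // Good v.1 ∧ c v} := fun n => Nat.rec ⟨w0, hw0⟩ (fun _ v => nx v) n
  have hws : ∀ n, w (n + 1) = nx (w n) := fun n => rfl
  have hgood : Good (L.seq (fun n => (w n).1.1) (fun n => (w n).1.2)) :=
    ⟨fun n => (w n).2.1, fun n => hnx1 (w n)⟩
  obtain ⟨i, _, hi⟩ := hH _ hgood 0
  have hstep : Step c (L.seq (fun n => (w n).1.1) (fun n => (w n).1.2), i) (w i).1 :=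
    ⟨hgood, hi, (w i).2.2, _, _, i, rfl, rfl⟩
  cases i with
  | zero => exact hmin0 _ ⟨hgood, hi⟩ hstep
  | succ i =>
    refine hnx2 (w i) _ hgood hi ?_ hstep
    have h1 : Le (L.seq (fun n => (w n).1.1) (fun n => (w n).1.2), i + 1) (w (i + 1)).1 :=
      (Anc.seq _ _ _ _ (Anc.refl _)).le
    exact Le.trans hgood h1 (hnx1 (w i))

/-- elements between two elements of a line are in the line -/
theorem line_between {ℓ : L} {m k : ℕ} {s : E} (h1 : Le (ℓ, m) s) (h2 : Le s (ℓ, k)) :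
    ∃ i, k ≤ i ∧ s = (ℓ, i) := by
  have h3 : s.1 = ℓ := by
    rcases h1.sub with h | h
    · exact h
    · rcases h2.sub with h' | h'
      · exact h'.symm
      · exact absurd (sub_trans h h') (sub_irrefl _)
  obtain ⟨ρ, j⟩ := s
  simp only at h3
  subst h3
  obtain ⟨a, ha, h4⟩ := h2
  simp only at ha h4
  rw [h4.same] at ha
  exact ⟨j, ha, rfl⟩

/-- intersections: the intersection is decided on one of the two lines -/
theorem meet {v s t : E} (h1 : Le v s) (h2 : Le v t) :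
    (∃ k, t.2 ≤ k ∧ Le (t.1, k) s ∧ Le v (t.1, k)) ∨
      ∃ k, s.2 ≤ k ∧ Le (s.1, k) t ∧ Le v (s.1, k) := by
  obtain ⟨a, ha, h3⟩ := h1
  obtain ⟨b, hb, h4⟩ := h2
  rcases h3.lin h4 with h | h
  · exact Or.inr ⟨a, ha, ⟨b, hb, h⟩, ⟨a, le_rfl, h3⟩⟩
  · exact Or.inl ⟨b, hb, ⟨a, ha, h⟩, ⟨b, le_rfl, h4⟩⟩

theorem anc_cst_cases {τ : L} {k m : ℕ} {a : E} (h : Anc (L.cst τ k, m) a) :
    a = (L.cst τ k, m) ∨ Anc (τ, k) a := by
  cases h with
  | refl => exact Or.inl rfl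
  | cst _ _ _ _ h => exact Or.inr h

/-- recovering the order from the two points over an element -/
theorem le_of_mem {t s : E} (h0 : s ∈ Fil (fun n => (L.cst t.1 t.2, n)))
    (h1 : s ∈ Fil (fun n => (L.cst t.1 (t.2 + 1), n))) : Le t s := by
  obtain ⟨n, a, ha, h2⟩ := h0
  obtain ⟨m, b, hb, h3⟩ := h1
  rcases anc_cst_cases h2 with h4 | h4
  · exfalso
    have h5 := congrArg Prod.fst h4
    simp only at h5
    rcases anc_cst_cases h3 with h6 | h6
    · have h7 := congrArg Prod.fst h6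
      simp only at h7
      rw [h5] at h7
      injection h7 with _ h8
      omega
    · have h9 := sub_cst t.1 t.2
      rw [← h5] at h9
      rcases h6.sub with h10 | h10
      · have h11 := congrArg Prod.fst h10
        simp only at h11
        rw [h11] at h9
        exact sub_irrefl _ h9
      · exact sub_irrefl _ (sub_trans h9 h10)
  · exact ⟨a, ha, h4⟩

theorem mem_cst0 (t : E) : t ∈ Fil (fun n => (L.cst t.1 t.2, n)) :=
  ⟨0, (Anc.cst _ _ _ _ (Anc.refl _)).le⟩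

theorem mem_cst1 (t : E) : t ∈ Fil (fun n => (L.cst t.1 (t.2 + 1), n)) :=
  ⟨0, t.2 + 1, Nat.le_succ _, Anc.cst _ _ _ _ (Anc.refl _)⟩

theorem isPt_line {ℓ : L} (h : Good ℓ) : IsPt (Fil (fun n => (ℓ, n))) := Or.inl ⟨ℓ, h, rfl⟩

theorem cst_ne (t : E) (hg : Good t.1) :
    Fil (fun n => (L.cst t.1 t.2, n)) ≠ Fil (fun n => (L.cst t.1 (t.2 + 1), n)) := by
  intro h
  have h1 := line_not_sub_line (ℓ := L.cst t.1 t.2) (ρ := L.cst t.1 (t.2 + 1)) hg h.le
  injection h1 with _ h2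
  omega

/-- a bad line -/
def bad : L := L.seq (fun _ => L.root) (fun _ => 0)

theorem not_good_bad : ¬ Good bad := by
  intro h
  obtain ⟨a, _, h1⟩ := h.2 0
  cases h1

end Pool.Agent.H57BR
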