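import Mathlib

/-!
# Non-resolvable bases: the combinatorial core (seat helper57)

`L` is the type of lines, `E = L × ℕ` the type of elements.  The element `(ℓ, i)` is the `i`-th element
of the line `ℓ`; lines decrease.  Over every element `w` there is the line `cst w`, and over every sequence
`w_0, w_1, ...` of elements there is a line `seq w` whose `i`-th element lies below `w_i`.  Only good lines are
used: in a good line `seq w` the element `w_{n+1}` lies below the element `(cst w_n, 1)`.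
-/

set_option autoImplicit false

namespace Pool.Agent.H57BR

/-- lines -/
inductive L : Type
  | root : L
  | cst : L → ℕ → L
  | seq : (ℕ → L) → (ℕ → ℕ) → L

/-- elements -/
abbrev E : Type := L × ℕ

/-- ancestors -/
inductive Anc : E → E → Prop
  | refl (v : E) : Anc v v
  | cst (ℓ : L) (k i : ℕ) (a : E) : Anc (ℓ, k) a → Anc (L.cst ℓ k, i) a
  | seq (f : ℕ → L) (g : ℕ → ℕ) (i : ℕ) (a : E) : Anc (f i, g i) a → Anc (L.seq f g, i) a

/-- `v` is below `y`: some ancestor of `v` is in the line of `y`, at the index of `y` or later -/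
def Le (v y : E) : Prop := ∃ a : ℕ, y.2 ≤ a ∧ Anc v (y.1, a)

/-- good lines -/
def Good : L → Prop
  | .root => True
  | .cst ℓ _ => Good ℓ
  | .seq f g => (∀ n, Good (f n)) ∧ ∀ n, Le (f (n + 1), g (n + 1)) (L.cst (f n) (g n), 1)

/-- number of proper ancestors -/
def dep : L → ℕ → ℕ
  | .root, _ => 0
  | .cst ℓ k, _ => dep ℓ k + 1
  | .seq f g, i => dep (f i) (g i) + 1

/-- immediate predecessors of a line -/
def Imm (a b : L) : Prop := (∃ k, b = L.cst a k) ∨ ∃ f g n, b = L.seq f g ∧ a = f n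

theorem imm_wf : WellFounded Imm := by
  refine ⟨fun ℓ => ?_⟩
  induction ℓ with
  | root =>
    refine ⟨_, fun a h => ?_⟩
    rcases h with ⟨k, h⟩ | ⟨f, g, n, h, _⟩ <;> exact absurd h (by simp)
  | cst ℓ k ih =>
    refine ⟨_, fun a h => ?_⟩
    rcases h with ⟨k', h⟩ | ⟨f, g, n, h, _⟩
    · injection h with h1 h2
      rw [← h1]; exact ih
    · exact absurd h (by simp)
  | seq f g ih =>
    refine ⟨_, fun a h => ?_⟩
    rcases h with ⟨k', h⟩ | ⟨f', g', n, h, h'⟩
    · exact absurd h (by simp)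
    · injection h with h1 h2
      rw [h', ← h1]; exact ih n

/-- `a` is a proper predecessor of `b` -/
def Sub (a b : L) : Prop := Relation.TransGen Imm a b

theorem sub_irrefl (a : L) : ¬ Sub a a := (imm_wf.transGen).irrefl.irrefl a

theorem sub_trans {a b c : L} (h : Sub a b) (h' : Sub b c) : Sub a c := Relation.TransGen.trans h h'

theorem sub_cst (ℓ : L) (k : ℕ) : Sub ℓ (L.cst ℓ k) := Relation.TransGen.single (Or.inl ⟨k, rfl⟩)

theorem sub_seq (f : ℕ → L) (g : ℕ → ℕ) (n : ℕ) : Sub (f n) (L.seq f g) :=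
  Relation.TransGen.single (Or.inr ⟨f, g, n, rfl, rfl⟩)

theorem Anc.sub {v a : E} (h : Anc v a) : a = v ∨ Sub a.1 v.1 := by
  induction h with
  | refl v => exact Or.inl rfl
  | cst ℓ k i a _ ih =>
    right
    rcases ih with rfl | ih
    · exact sub_cst _ _
    · exact sub_trans ih (sub_cst _ _)
  | seq f g i a _ ih =>
    right
    rcases ih with rfl | ih
    · exact sub_seq _ _ _
    · exact sub_trans ih (sub_seq _ _ _)

theorem Anc.trans {v a b : E} (h : Anc v a) (h' : Anc a b) : Anc v b := by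
  induction h with
  | refl v => exact h'
  | cst ℓ k i a _ ih => exact Anc.cst _ _ _ _ (ih h')
  | seq f g i a _ ih => exact Anc.seq _ _ _ _ (ih h')

theorem Anc.good {v a : E} (h : Anc v a) : Good v.1 → Good a.1 := by
  induction h with
  | refl v => exact id
  | cst ℓ k i a _ ih => exact fun hg => ih hg
  | seq f g i a _ ih => exact fun hg => ih (hg.1 i)

theorem Anc.same {ℓ : L} {i j : ℕ} (h : Anc (ℓ, i) (ℓ, j)) : j = i := by
  rcases h.sub with h | h
  · exact congrArg Prod.snd h
  · exact absurd h (sub_irrefl _)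

/-- the ancestors of an element form a chain -/
theorem Anc.lin {v a b : E} (h : Anc v a) (h' : Anc v b) : Anc a b ∨ Anc b a := by
  induction h with
  | refl v => exact Or.inl h'
  | cst ℓ k i a ha ih =>
    cases h' with
    | refl => exact Or.inr (Anc.cst _ _ _ _ ha)
    | cst _ _ _ _ hb => exact ih hb
  | seq f g i a ha ih =>
    cases h' with
    | refl => exact Or.inr (Anc.seq _ _ _ _ ha)
    | seq _ _ _ _ hb => exact ih hb

theorem Anc.uniq {v : E} {ℓ : L} {i j : ℕ} (h : Anc v (ℓ, i)) (h' : Anc v (ℓ, j)) : i = j := by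
  rcases h.lin h' with h | h
  · exact h.same.symm
  · exact h.same

theorem Anc.dep_le {v a : E} (h : Anc v a) : dep a.1 a.2 ≤ dep v.1 v.2 := by
  induction h with
  | refl v => exact le_rfl
  | cst ℓ k i a _ ih => exact ih.trans (Nat.le_succ _)
  | seq f g i a _ ih => exact ih.trans (Nat.le_succ _)

theorem Anc.dep_eq {v a : E} (h : Anc v a) (h' : dep v.1 v.2 ≤ dep a.1 a.2) : a = v := by
  cases h with
  | refl => rfl
  | cst ℓ k i _ ha =>
    have := ha.dep_le
    simp only [dep] at h' this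
    omega
  | seq f g i _ ha =>
    have := ha.dep_le
    simp only [dep] at h' this
    omega

theorem Le.refl (v : E) : Le v v := ⟨v.2, le_rfl, Anc.refl v⟩

theorem Anc.le {v a : E} (h : Anc v a) : Le v a := ⟨a.2, le_rfl, h⟩

theorem le_line (ℓ : L) {i j : ℕ} (h : j ≤ i) : Le (ℓ, i) (ℓ, j) := ⟨i, h, Anc.refl _⟩

theorem Le.sub {v y : E} (h : Le v y) : y.1 = v.1 ∨ Sub y.1 v.1 := by
  obtain ⟨a, _, h⟩ := h
  rcases h.sub with h | h
  · exact Or.inl (by rw [← h])
  · exact Or.inr h

theorem Le.good {v y : E} (h : Le v y) (hv : Good v.1) : Good y.1 := by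
  obtain ⟨a, _, h⟩ := h
  exact h.good hv

theorem Le.anc_cst {v w : E} {j : ℕ} (h : Le v (L.cst w.1 w.2, j)) : Anc v w := by
  obtain ⟨a, _, h⟩ := h
  exact h.trans (Anc.cst _ _ _ _ (Anc.refl _))

theorem good_chain {f : ℕ → L} {g : ℕ → ℕ} (h : Good (L.seq f g)) {m n : ℕ} (hmn : m ≤ n) :
    Anc (f n, g n) (f m, g m) := by
  induction n, hmn using Nat.le_induction with
  | base => exact Anc.refl _
  | succ n _ ih => exact (Le.anc_cst (w := (f n, g n)) (h.2 n)).trans ih

theorem desc {ℓ : L} (hg : Good ℓ) {i a : ℕ} (hia : i ≤ a) {ρ : L} {b : ℕ} (h : Anc (ℓ, i) (ρ, b)) :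
    ∃ b' : ℕ, b ≤ b' ∧ Anc (ℓ, a) (ρ, b') := by
  cases h with
  | refl => exact ⟨a, hia, Anc.refl _⟩
  | cst _ _ _ _ ha => exact ⟨b, le_rfl, Anc.cst _ _ _ _ ha⟩
  | seq f g _ _ ha => exact ⟨b, le_rfl, Anc.seq _ _ _ _ ((good_chain hg hia).trans ha)⟩

theorem Le.trans {v s t : E} (hv : Good v.1) (h : Le v s) (h' : Le s t) : Le v t := by
  obtain ⟨a, ha, h⟩ := h
  obtain ⟨b, hb, h'⟩ := h'
  have hs : Good s.1 := h.good hv
  obtain ⟨b', hb', h''⟩ := desc hs ha h'
  exact ⟨b', hb.trans hb', h.trans h''⟩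

theorem Le.antisymm {v s : E} (h : Le v s) (h' : Le s v) : v = s := by
  obtain ⟨a, ha, h1⟩ := h
  obtain ⟨b, hb, h2⟩ := h'
  rcases h1.sub with h3 | h3
  · rcases h2.sub with h4 | h4
    · have h5 := congrArg Prod.fst h3
      have h6 := congrArg Prod.snd h3
      have h7 := congrArg Prod.snd h4
      simp only at h5 h6 h7
      ext
      · exact h5.symm
      · omega
    · have h5 := congrArg Prod.fst h3
      simp only at h5 h4
      rw [h5] at h4
      exact absurd h4 (sub_irrefl _)
  · rcases h2.sub with h4 | h4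
    · have h5 := congrArg Prod.fst h4
      simp only at h5 h3
      rw [h5] at h3
      exact absurd h3 (sub_irrefl _)
    · exact absurd (sub_trans h3 h4) (sub_irrefl _)

/-- the filter generated by a sequence -/
def Fil (v : ℕ → E) : Set E := {y | ∃ n, Le (v n) y}

/-- paths: every term is an element of a line `seq w` over the previous term -/
def Path (u : ℕ → E) : Prop :=
  (∀ n, Good (u n).1) ∧ ∀ n, ∃ f g i, u (n + 1) = (L.seq f g, i) ∧ u n = (f i, g i)

theorem Path.anc {u : ℕ → E} (h : Path u) {m n : ℕ} (hmn : m ≤ n) : Anc (u n) (u m) := by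
  induction n, hmn using Nat.le_induction with
  | base => exact Anc.refl _
  | succ n _ ih =>
    obtain ⟨f, g, i, h1, h2⟩ := h.2 n
    rw [h1]
    rw [h2] at ih
    exact Anc.seq _ _ _ _ ih

theorem Path.dep {u : ℕ → E} (h : Path u) (n : ℕ) : n ≤ dep (u n).1 (u n).2 := by
  induction n with
  | zero => exact Nat.zero_le _
  | succ n ih =>
    obtain ⟨f, g, i, h1, h2⟩ := h.2 n
    rw [h1]
    rw [h2] at ih
    simp only [Pool.Agent.H57BR.dep]
    exact Nat.succ_le_succ ih

/-- if a path lies above `v` then it consists of ancestors of `v` -/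
theorem Path.anc_of_le {u : ℕ → E} (h : Path u) {v : E} {n : ℕ} (hv : Le v (u (n + 1))) :
    Anc v (u n) := by
  obtain ⟨f, g, i, h1, h2⟩ := h.2 n
  have hg := h.1 (n + 1)
  rw [h1] at hv hg
  obtain ⟨a, ha, hv⟩ := hv
  simp only at ha hv hg
  rw [h2]
  exact hv.trans (Anc.seq _ _ _ _ (good_chain hg ha))

/-- the elements between two terms of a path are terms of the path -/
theorem Path.between {u : ℕ → E} (h : Path u) (n : ℕ) : ∀ t : E, Le (u n) t → Le t (u 0) →
    ∃ m ≤ n, t = u m := by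
  induction n with
  | zero => exact fun t h1 h2 => ⟨0, le_rfl, h2.antisymm h1⟩
  | succ n ih =>
    intro t h1 h2
    obtain ⟨f, g, i, h3, h4⟩ := h.2 n
    have hg := h.1 (n + 1)
    rw [h3] at h1 hg
    obtain ⟨a, ha, h1⟩ := h1
    obtain ⟨ℓ, j⟩ := t
    simp only at ha h1 hg
    have h0n : Le (u n) (u 0) := (h.anc (Nat.zero_le n)).le
    cases h1 with
    | refl =>
      -- `t = (seq f g, j)` with `j ≤ i`
      rcases ha.eq_or_lt with rfl | hlt
      · exact ⟨n + 1, le_rfl, h3.symm⟩
      · exfalso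
        obtain ⟨b, hb, h5⟩ := h2
        cases hu : u 0 with
        | mk ℓ0 i0 =>
          rw [hu] at h5 hb
          simp only at h5 hb
          cases h5 with
          | refl =>
            rw [hu, h4] at h0n
            rcases h0n.sub with h6 | h6
            · have h7 : Sub (f i) (L.seq f g) := sub_seq _ _ _
              simp only at h6
              rw [← h6] at h7
              exact sub_irrefl _ h7
            · exact sub_irrefl _ (sub_trans h6 (sub_seq _ _ _))
          | seq _ _ _ _ h5 =>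
            have h6 : Le (f j, g j) (u 0) := ⟨b, by rw [hu]; exact hb, by rw [hu]; exact h5⟩
            have hgj : Good (f j) := hg.1 j
            have h7 : Le (u n) (L.cst (f j) (g j), 1) := by
              rw [h4]
              exact Le.trans (hg.1 i) (good_chain hg (Nat.succ_le_of_lt hlt)).le (hg.2 j)
            have h8 : Le (L.cst (f j) (g j), 1) (u 0) :=
              Le.trans (by exact hgj) (Anc.cst _ _ _ _ (Anc.refl _)).le h6
            obtain ⟨m, hm, h9⟩ := ih _ h7 h8
            cases m with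
            | zero =>
              rw [← h9] at h6
              rcases h6.sub with h10 | h10
              · have h11 := sub_cst (f j) (g j)
                simp only at h10
                rw [h10] at h11
                exact sub_irrefl _ h11
              · exact sub_irrefl _ (sub_trans h10 (sub_cst _ _))
            | succ m =>
              obtain ⟨f', g', i', h10, _⟩ := h.2 m
              rw [h10] at h9
              simp at h9
    | seq _ _ _ _ h5 =>
      obtain ⟨m, hm, h6⟩ := ih (ℓ, j) ⟨a, ha, by rw [h4]; exact h5⟩ h2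
      exact ⟨m, hm.trans (Nat.le_succ _), h6⟩

/-- a chain of ancestors does not cross a line completely -/
theorem no_line {v : ℕ → E} (h : ∀ n, Anc (v (n + 1)) (v n)) (ℓ : L)
    (h' : ∀ n, ∃ m, Le (v m) (ℓ, n)) : False := by
  have h2 : ∀ m n, m ≤ n → Anc (v n) (v m) := by
    intro m n hmn
    induction n, hmn using Nat.le_induction with
    | base => exact Anc.refl _
    | succ n _ ih => exact (h n).trans ih
  obtain ⟨m, a, _, h3⟩ := h' 0
  obtain ⟨m', a', h4, h5⟩ := h' (a + 1)
  simp only at h3 h4 h5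
  have h6 := (h2 m (max m m') (le_max_left _ _)).trans h3
  have h7 := (h2 m' (max m m') (le_max_right _ _)).trans h5
  have := h6.uniq h7
  omega

/-- `Fil` of a line is not contained in the filter of a chain of ancestors -/
theorem fil_line_not_sub {v : ℕ → E} (h : ∀ n, Anc (v (n + 1)) (v n)) (ℓ : L) :
    ¬ Fil (fun n => (ℓ, n)) ⊆ Fil v := fun hs =>
  no_line h ℓ fun n => hs ⟨n, Le.refl _⟩

/-- the points -/
def IsPt (F : Set E) : Prop :=
  (∃ ℓ, Good ℓ ∧ F = Fil (fun n => (ℓ, n))) ∨ ∃ u, Path u ∧ F = Fil u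

/-- a descending sequence of good elements -/
def Desc (v : ℕ → E) : Prop := (∀ n, Good (v n).1) ∧ ∀ m n, m ≤ n → Le (v n) (v m)

theorem desc_line {ℓ : L} (h : Good ℓ) : Desc (fun n => (ℓ, n)) :=
  ⟨fun _ => h, fun _ _ hmn => le_line _ hmn⟩

theorem Path.desc {u : ℕ → E} (h : Path u) : Desc u := ⟨h.1, fun _ _ hmn => (h.anc hmn).le⟩

theorem IsPt.exists_desc {F : Set E} (h : IsPt F) : ∃ v, Desc v ∧ F = Fil v := by
  rcases h with ⟨ℓ, h1, h2⟩ | ⟨u, h1, h2⟩
  · exact ⟨_, desc_line h1, h2⟩
  · exact ⟨_, h1.desc, h2⟩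

theorem IsPt.good {F : Set E} (h : IsPt F) {y : E} (hy : y ∈ F) : Good y.1 := by
  obtain ⟨v, h1, rfl⟩ := h.exists_desc
  obtain ⟨n, hn⟩ := hy
  exact hn.good (h1.1 n)

theorem IsPt.up {F : Set E} (h : IsPt F) {y z : E} (hy : y ∈ F) (hz : Le y z) : z ∈ F := by
  obtain ⟨v, h1, rfl⟩ := h.exists_desc
  obtain ⟨n, hn⟩ := hy
  exact ⟨n, hn.trans (h1.1 n) hz⟩

theorem IsPt.down {F : Set E} (h : IsPt F) {y z : E} (hy : y ∈ F) (hz : z ∈ F) :
    ∃ t ∈ F, Le t y ∧ Le t z := by
  obtain ⟨v, h1, rfl⟩ := h.exists_desc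
  obtain ⟨n, hn⟩ := hy
  obtain ⟨m, hm⟩ := hz
  exact ⟨v (max n m), ⟨_, Le.refl _⟩, (h1.2 _ _ (le_max_left n m)).trans (h1.1 _) hn,
    (h1.2 _ _ (le_max_right n m)).trans (h1.1 _) hm⟩

/-- a path does not stay above a chain of ancestors which crosses lines over elements infinitely
often -/
theorem path_not_sub_seq {u : ℕ → E} (h : Path u) {f : ℕ → L} {g : ℕ → ℕ} (hg : Good (L.seq f g))
    (h' : ∀ n, ∃ m, Anc (f m, g m) (u n)) : False := by
  obtain ⟨m, hm⟩ := h' 0
  -- the element of the line over `w_m`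
  obtain ⟨j, hj, h1⟩ := hg.2 m
  simp only at hj h1
  obtain ⟨m', hm'⟩ := h' (dep (L.cst (f m) (g m)) j)
  have h2 : Anc (f (max (m + 1) m'), g (max (m + 1) m')) (L.cst (f m) (g m), j) :=
    (good_chain hg (le_max_left _ _)).trans h1
  have h3 := (good_chain hg (le_max_right (m + 1) m')).trans hm'
  have h4 : Anc (u (dep (L.cst (f m) (g m)) j)) (L.cst (f m) (g m), j) := by
    rcases h2.lin h3 with h5 | h5
    · have h6 := h5.dep_eq (h.dep _)
      rw [h6]
      exact Anc.refl _
    · exact h5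
  have h5 : Anc (L.cst (f m) (g m), j) (u 0) := Anc.cst _ _ _ _ hm
  obtain ⟨k, _, h6⟩ := h.between _ _ h4.le h5.le
  cases k with
  | zero =>
    rw [← h6] at hm
    rcases hm.sub with h7 | h7
    · have h8 := congrArg Prod.fst h7
      simp only at h8
      have h9 := sub_cst (f m) (g m)
      rw [h8] at h9
      exact sub_irrefl _ h9
    · exact sub_irrefl _ (sub_trans h7 (sub_cst _ _))
  | succ k =>
    obtain ⟨f', g', i', h7, _⟩ := h.2 k
    rw [h7] at h6
    simp at h6

/-- a line contains at most one term of a path, and infinitely many terms of a path do not lie above an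
element -/
theorem path_not_sub_line {u : ℕ → E} (h : Path u) {ℓ : L} (hℓ : Good ℓ) :
    ¬ Fil u ⊆ Fil (fun n => (ℓ, n)) := by
  intro hs
  have h1 : ∀ n, ∃ m, Anc (ℓ, m) (u n) := by
    intro n
    obtain ⟨m, hm⟩ := hs ⟨n + 1, Le.refl _⟩
    exact ⟨m, h.anc_of_le hm⟩
  -- no term is in the line
  have h2 : ∀ n, (u n).1 ≠ ℓ := by
    intro n hn
    obtain ⟨m, hm⟩ := h1 (n + 1)
    obtain ⟨f, g, i, h3, h4⟩ := h.2 n
    rw [h4] at hn
    simp only at hn
    have h5 := sub_seq f g i
    rw [hn] at h5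
    rw [h3] at hm
    rcases hm.sub with h6 | h6
    · have := congrArg Prod.fst h6
      simp only at this
      rw [this] at h5
      exact sub_irrefl _ h5
    · exact sub_irrefl _ (sub_trans h6 h5)
  cases ℓ with
  | root =>
    obtain ⟨m, hm⟩ := h1 0
    cases hu : u 0 with
    | mk a b =>
      rw [hu] at hm
      cases hm with
      | refl => exact h2 0 (by rw [hu])
  | cst κ k =>
    obtain ⟨m, hm⟩ := h1 (dep κ k + 1)
    have h3 : Anc (κ, k) (u (dep κ k + 1)) := by
      cases hu : u (dep κ k + 1) with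
      | mk a b =>
        rw [hu] at hm
        cases hm with
        | refl => exact absurd (by rw [hu]) (h2 (dep κ k + 1))
        | cst _ _ _ _ hm => exact hm
    have h4 := h3.dep_le
    have h5 := h.dep (dep κ k + 1)
    simp only at h4
    omega
  | seq f g =>
    refine path_not_sub_seq h hℓ fun n => ?_
    obtain ⟨m, hm⟩ := h1 n
    refine ⟨m, ?_⟩
    cases hu : u n with
    | mk a b =>
      rw [hu] at hm
      cases hm with
      | refl => exact absurd (by rw [hu]) (h2 n)
      | seq _ _ _ _ hm => exact hm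

theorem line_not_sub_line {ℓ ρ : L} (hρ : Good ρ)
    (h : Fil (fun n => (ℓ, n)) ⊆ Fil (fun n => (ρ, n))) : ℓ = ρ := by
  by_contra hne
  have h1 : ∀ n, ∃ m, Le (ρ, m) (ℓ, n) := fun n => h ⟨n, Le.refl _⟩
  cases ρ with
  | root =>
    obtain ⟨m, a, _, h2⟩ := h1 0
    cases h2
    exact hne rfl
  | cst κ k =>
    refine no_line (v := fun _ => (κ, k)) (fun _ => Anc.refl _) ℓ fun n => ⟨0, ?_⟩
    obtain ⟨m, a, h2, h3⟩ := h1 n
    cases h3 with
    | refl => exact absurd rfl hne
    | cst _ _ _ _ h3 => exact ⟨a, h2, h3⟩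
  | seq f g =>
    refine no_line (v := fun n => (f n, g n)) (fun n => good_chain hρ (Nat.le_succ n)) ℓ fun n => ?_
    obtain ⟨m, a, h2, h3⟩ := h1 n
    refine ⟨m, ?_⟩
    cases h3 with
    | refl => exact absurd rfl hne
    | seq _ _ _ _ h3 => exact ⟨a, h2, h3⟩

theorem path_sub_path {u v : ℕ → E} (hu : Path u) (hv : Path v) (h : Fil u ⊆ Fil v) :
    Fil v ⊆ Fil u := by
  have h1 : ∀ n, ∃ m, Anc (v m) (u n) := by
    intro n
    obtain ⟨m, hm⟩ := h ⟨n + 1, Le.refl _⟩
    exact ⟨m, hu.anc_of_le hm⟩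
  rintro y ⟨n, hn⟩
  -- a late term of `u` is below `v n`
  obtain ⟨m, hm⟩ := h1 (dep (v n).1 (v n).2)
  have h2 := (hv.anc (le_max_left m n)).trans hm
  have h3 := hv.anc (le_max_right m n)
  have h4 : Anc (u (dep (v n).1 (v n).2)) (v n) := by
    rcases h3.lin h2 with h5 | h5
    · rw [h5.dep_eq (hu.dep _)]
      exact Anc.refl _
    · exact h5
  exact ⟨_, h4.le.trans (hu.1 _) hn⟩

/-- different points are incomparable -/
theorem pt_inj {F G : Set E} (hF : IsPt F) (hG : IsPt G) (h : F ⊆ G) : F = G := by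
  rcases hF with ⟨ℓ, h1, rfl⟩ | ⟨u, h1, rfl⟩
  · rcases hG with ⟨ρ, h2, rfl⟩ | ⟨v, h2, rfl⟩
    · rw [line_not_sub_line h2 h]
    · exact absurd h (fil_line_not_sub (fun n => h2.anc (Nat.le_succ n)) ℓ)
  · rcases hG with ⟨ρ, h2, rfl⟩ | ⟨v, h2, rfl⟩
    · exact absurd h (path_not_sub_line h1 h2)
    · exact Set.Subset.antisymm h (path_sub_path h1 h2 h)

end Pool.Agent.H57BR
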