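import Pool.Agent.helper57_BR.Space

/-!
# The separable space (seat helper57)

The points of the first space together with countably many clopen copies of the Cantor set.
-/

set_option autoImplicit false

open Set TopologicalSpace

namespace Pool.Agent.H57BR

/-- the Cantor set -/
abbrev Ca : Type := ℕ → Bool

theorem Ca_crowded (c : Ca) : ¬ IsOpen {c} := by
  intro h
  have h1 : Filter.Tendsto (fun n : ℕ => Function.update c n (!c n)) Filter.atTop (nhds c) := by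
    rw [tendsto_pi_nhds]
    intro i
    refine tendsto_const_nhds.congr' ?_
    filter_upwards [Filter.eventually_gt_atTop i] with n hn
    rw [Function.update_of_ne (ne_of_lt hn)]
  obtain ⟨n, hn⟩ := (h1.eventually (h.mem_nhds rfl)).exists
  have h2 : Function.update c n (!c n) = c := hn
  have h3 := congrFun h2 n
  rw [Function.update_self] at h3
  cases hc : c n <;> rw [hc] at h3 <;> simp at h3

/-- the set of points of the separable space -/
def Y : Type := Pt ⊕ (Cd × Ca)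

/-- the basic neighbourhoods of the points of the first kind -/
def hat (s : E) : Set Y := {y | Sum.elim (fun x : Pt => s ∈ x.1) (fun z : Cd × Ca => z.1 ∈ D s) y}

/-- the basic neighbourhoods of the points of the second kind -/
def cyl (d : Cd) (V : Set Ca) : Set Y :=
  {y | Sum.elim (fun _ : Pt => False) (fun z : Cd × Ca => z.1 = d ∧ z.2 ∈ V) y}

/-- the points of the first kind -/
def il (x : Pt) : Y := Sum.inl x

/-- the points of the second kind -/
def ir (d : Cd) (c : Ca) : Y := Sum.inr (d, c)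

theorem il_hat (s : E) (x : Pt) : il x ∈ hat s ↔ s ∈ x.1 := Iff.rfl

theorem ir_hat (s : E) (d : Cd) (c : Ca) : ir d c ∈ hat s ↔ d ∈ D s := Iff.rfl

theorem il_cyl (d : Cd) (V : Set Ca) (x : Pt) : il x ∉ cyl d V := fun h => h

theorem ir_cyl (d e : Cd) (V : Set Ca) (c : Ca) : ir e c ∈ cyl d V ↔ e = d ∧ c ∈ V := Iff.rfl

theorem Y_cases {P : Y → Prop} (h1 : ∀ x, P (il x)) (h2 : ∀ d c, P (ir d c)) (y : Y) : P y := by
  rcases y with x | ⟨d, c⟩
  · exact h1 x
  · exact h2 d c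

theorem hat_mono {t s : E} (hg : Good t.1) (h : Le t s) : hat t ⊆ hat s := by
  refine Y_cases (fun x hx => ?_) (fun d c hd => ?_)
  · exact x.2.up hx h
  · exact D_mono hg h hd

/-- the topology -/
instance topY : TopologicalSpace Y where
  IsOpen U := (∀ x : Pt, il x ∈ U → ∃ s ∈ x.1, hat s ⊆ U) ∧ ∀ d : Cd, IsOpen {c | ir d c ∈ U}
  isOpen_univ := by
    refine ⟨fun x _ => ?_, fun d => ?_⟩
    · obtain ⟨v, _, hv⟩ := x.2.exists_desc
      exact ⟨v 0, by rw [hv]; exact ⟨0, Le.refl _⟩, subset_univ _⟩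
    · simp
  isOpen_inter := by
    rintro U V ⟨hU1, hU2⟩ ⟨hV1, hV2⟩
    refine ⟨fun x hx => ?_, fun d => (hU2 d).inter (hV2 d)⟩
    obtain ⟨s, hs, hsU⟩ := hU1 x hx.1
    obtain ⟨t, ht, htV⟩ := hV1 x hx.2
    obtain ⟨v, hv, h1, h2⟩ := x.2.down hs ht
    have hg := x.2.good hv
    exact ⟨v, hv, subset_inter ((hat_mono hg h1).trans hsU) ((hat_mono hg h2).trans htV)⟩
  isOpen_sUnion := by
    intro 𝒰 h𝒰
    refine ⟨fun x hx => ?_, fun d => ?_⟩
    · obtain ⟨U, hU, hxU⟩ := hx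
      obtain ⟨s, hs, hsU⟩ := (h𝒰 U hU).1 x hxU
      exact ⟨s, hs, hsU.trans (subset_sUnion_of_mem hU)⟩
    · have h1 : {c | ir d c ∈ ⋃₀ 𝒰} = ⋃ U ∈ 𝒰, {c | ir d c ∈ U} := by
        ext c
        simp
      rw [h1]
      exact isOpen_biUnion fun U hU => (h𝒰 U hU).2 d

theorem isOpen_iff_Y {U : Set Y} : IsOpen U ↔ (∀ x : Pt, il x ∈ U → ∃ s ∈ x.1, hat s ⊆ U) ∧
    ∀ d : Cd, IsOpen {c | ir d c ∈ U} := Iff.rfl

theorem hat_open (s : E) : IsOpen (hat s) :=
  isOpen_iff_Y.2 ⟨fun _ hx => ⟨s, hx, Subset.rfl⟩, fun d => isOpen_const (p := d ∈ D s)⟩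

theorem cyl_open (d : Cd) {V : Set Ca} (hV : IsOpen V) : IsOpen (cyl d V) :=
  isOpen_iff_Y.2 ⟨fun x hx => absurd hx (il_cyl d V x), fun e => (isOpen_const (p := e = d)).inter hV⟩

theorem hat_closed {s : E} (hs : Good s.1) : IsClosed (hat s) := by
  rw [← isOpen_compl_iff, isOpen_iff_Y]
  refine ⟨fun x hx => ?_, fun d => isOpen_const (p := ¬ d ∈ D s)⟩
  obtain ⟨t, ht, hts⟩ := D_sep x.2 hs hx
  refine ⟨t, ht, ?_⟩
  refine Y_cases (fun y hy hy' => ?_) (fun d c hd hd' => ?_)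
  · obtain ⟨v, hv, h1, h2⟩ := y.2.down (show t ∈ y.1 from hy) (show s ∈ y.1 from hy')
    have hg := y.2.good hv
    obtain ⟨d, hd⟩ := D_nonempty v
    have h3 : d ∈ D t ∩ D s := ⟨D_mono hg h1 hd, D_mono hg h2 hd⟩
    rw [hts] at h3
    exact h3
  · have h3 : d ∈ D t ∩ D s := ⟨hd, hd'⟩
    rw [hts] at h3
    exact h3

theorem cyl_closed (d : Cd) {V : Set Ca} (hV : IsClosed V) : IsClosed (cyl d V) := by
  rw [← isOpen_compl_iff, isOpen_iff_Y]
  refine ⟨fun x _ => ?_, fun e => ?_⟩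
  · obtain ⟨t, ht, hd⟩ := D_inter x.2 d
    refine ⟨t, ht, ?_⟩
    refine Y_cases (fun y _ => il_cyl d V y) (fun e c he he' => ?_)
    rw [ir_hat] at he
    have h1 := ((ir_cyl _ _ _ _).1 he').1
    rw [h1] at he
    exact hd he
  · have h1 : {c | ir e c ∈ (cyl d V)ᶜ} = {c | ¬ (e = d)} ∪ Vᶜ := by
      ext c
      simp only [mem_compl_iff, mem_ofPred_eq, mem_union, ir_cyl, not_and_or]
    rw [h1]
    exact (isOpen_const (p := ¬ e = d)).union hV.isOpen_compl

/-- the base -/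
def BY : Set (Set Y) :=
  {U | (∃ s : E, Good s.1 ∧ U = hat s) ∨ ∃ (d : Cd) (V : Set Ca), IsClopen V ∧ U = cyl d V}

theorem BY_clopen {U : Set Y} (hU : U ∈ BY) : IsClopen U := by
  rcases hU with ⟨s, hs, rfl⟩ | ⟨d, V, hV, rfl⟩
  · exact ⟨hat_closed hs, hat_open s⟩
  · exact ⟨cyl_closed d hV.1, cyl_open d hV.2⟩

theorem BY_basis : IsTopologicalBasis BY := by
  refine isTopologicalBasis_of_isOpen_of_nhds (fun U hU => (BY_clopen hU).2) ?_
  intro y U hy hU
  rw [isOpen_iff_Y] at hU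
  revert hy
  refine Y_cases (P := fun y => y ∈ U → ∃ V ∈ BY, y ∈ V ∧ V ⊆ U) (fun x hx => ?_) (fun d c hc => ?_) y
  · obtain ⟨s, hs, hsU⟩ := hU.1 x hx
    exact ⟨hat s, Or.inl ⟨s, x.2.good hs, rfl⟩, hs, hsU⟩
  · obtain ⟨V, hV, hcV, hVU⟩ := isTopologicalBasis_isClopen.exists_subset_of_mem_open
      (show c ∈ {c | ir d c ∈ U} from hc) (hU.2 d)
    refine ⟨cyl d V, Or.inr ⟨d, V, hV, rfl⟩, ⟨rfl, hcV⟩, ?_⟩
    refine Y_cases (fun x hx => absurd hx (il_cyl d V x)) (fun e c' h => ?_)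
    obtain ⟨h1, h2⟩ := (ir_cyl _ _ _ _).1 h
    rw [h1]
    exact hVU h2

theorem Y_sep {x y : Y} (h : x ≠ y) : ∃ U ∈ BY, x ∈ U ∧ y ∉ U := by
  revert h
  refine Y_cases (P := fun x => x ≠ y → ∃ U ∈ BY, x ∈ U ∧ y ∉ U) (fun x h => ?_) (fun d c h => ?_) x
  · revert h
    refine Y_cases (P := fun y => il x ≠ y → ∃ U ∈ BY, il x ∈ U ∧ y ∉ U) (fun z h => ?_)
      (fun e c h => ?_) y
    · obtain ⟨s, hs, hs'⟩ := Pt_sep (x := x) (y := z) (fun h' => h (by rw [h']))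
      exact ⟨hat s, Or.inl ⟨s, x.2.good hs, rfl⟩, hs, hs'⟩
    · obtain ⟨t, ht, he⟩ := D_inter x.2 e
      exact ⟨hat t, Or.inl ⟨t, x.2.good ht, rfl⟩, ht, he⟩
  · revert h
    refine Y_cases (P := fun y => ir d c ≠ y → ∃ U ∈ BY, ir d c ∈ U ∧ y ∉ U) (fun z h => ?_)
      (fun e c' h => ?_) y
    · exact ⟨cyl d univ, Or.inr ⟨d, univ, isClopen_univ, rfl⟩, ⟨rfl, trivial⟩, il_cyl _ _ _⟩
    · by_cases hde : d = e
      · subst hde
        have hc : c ≠ c' := fun h' => h (by rw [h'])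
        obtain ⟨V, hV, hcV, hVU⟩ := isTopologicalBasis_isClopen.exists_subset_of_mem_open
          (show c ∈ ({c'}ᶜ : Set Ca) from hc) isClosed_singleton.isOpen_compl
        exact ⟨cyl d V, Or.inr ⟨d, V, hV, rfl⟩, ⟨rfl, hcV⟩, fun h' => hVU h'.2 rfl⟩
      · exact ⟨cyl d univ, Or.inr ⟨d, univ, isClopen_univ, rfl⟩, ⟨rfl, trivial⟩,
          fun h' => hde h'.1.symm⟩

instance t2Y : T2Space Y := by
  refine ⟨fun x y h => ?_⟩
  obtain ⟨U, hU, hx, hy⟩ := Y_sep h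
  exact ⟨U, Uᶜ, (BY_clopen hU).2, (BY_clopen hU).1.isOpen_compl, hx, hy, disjoint_compl_right⟩

instance regY : RegularSpace Y := by
  refine RegularSpace.of_exists_mem_nhds_isClosed_subset fun y U hU => ?_
  obtain ⟨V, hV, hy, hVU⟩ := BY_basis.mem_nhds_iff.1 hU
  exact ⟨V, (BY_clopen hV).2.mem_nhds hy, (BY_clopen hV).1, hVU⟩

instance t3Y : T3Space Y := ⟨⟩

theorem Y_crowded (y : Y) : ¬ IsOpen {y} := by
  refine Y_cases (P := fun y => ¬ IsOpen {y}) (fun x h => ?_) (fun d c h => ?_) y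
  · obtain ⟨s, _, hs⟩ := (isOpen_iff_Y.1 h).1 x rfl
    obtain ⟨d, hd⟩ := D_nonempty s
    have h1 : ir d (fun _ => true) ∈ ({il x} : Set Y) := hs hd
    have h2 : ir d (fun _ => true) = il x := h1
    cases h2
  · have h1 := (isOpen_iff_Y.1 h).2 d
    have h2 : {c' | ir d c' ∈ ({ir d c} : Set Y)} = {c} := by
      ext c'
      simp only [mem_singleton_iff, mem_ofPred_eq]
      constructor
      · intro h3
        have h4 := Sum.inr.inj h3
        exact congrArg Prod.snd h4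
      · rintro rfl
        rfl
    rw [h2] at h1
    exact Ca_crowded c h1

instance sepY : SeparableSpace Y := by
  obtain ⟨Q, hQc, hQd⟩ := exists_countable_dense Ca
  refine ⟨(fun z : Cd × Ca => ir z.1 z.2) '' (univ ×ˢ Q), ?_, ?_⟩
  · exact (countable_univ.prod hQc).image _
  · rw [BY_basis.dense_iff]
    rintro U (⟨s, hs, rfl⟩ | ⟨d, V, hV, rfl⟩) hne
    · obtain ⟨d, hd⟩ := D_nonempty s
      obtain ⟨q, hq⟩ := hQd.nonempty
      exact ⟨ir d q, hd, ⟨(d, q), ⟨trivial, hq⟩, rfl⟩⟩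
    · have hVne : V.Nonempty := by
        obtain ⟨y, hy⟩ := hne
        revert hy
        refine Y_cases (P := fun y => y ∈ cyl d V → V.Nonempty)
          (fun x hx => absurd hx (il_cyl d V x)) (fun e c h => ⟨c, h.2⟩) y
      obtain ⟨q, hq, hq'⟩ := hQd.exists_mem_open hV.2 hVne
      exact ⟨ir d q, ⟨rfl, hq'⟩, ⟨(d, q), ⟨trivial, hq⟩, rfl⟩⟩

theorem BY_nonres : ¬ ∃ 𝒞 𝒟 : Set (Set Y), 𝒞 ∪ 𝒟 = BY ∧ Disjoint 𝒞 𝒟 ∧
    IsTopologicalBasis 𝒞 ∧ IsTopologicalBasis 𝒟 := by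
  refine nonres il hat BY (fun s _ => hat_open s) (fun _ _ _ => Iff.rfl) ?_
  rintro U (⟨s, hs, rfl⟩ | ⟨d, V, hV, rfl⟩) x hx
  · exact ⟨s, hs, rfl⟩
  · exact absurd hx (il_cyl d V x)

instance firstY : FirstCountableTopology Y := by
  refine ⟨fun y => ?_⟩
  refine Y_cases (P := fun y => (nhds y).IsCountablyGenerated) (fun x => ?_) (fun d c => ?_) y
  · obtain ⟨v, hv, hxv⟩ := x.2.exists_desc
    have h : (nhds (il x)).HasBasis (fun _ : ℕ => True) (fun n => hat (v n)) := by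
      refine Filter.hasBasis_iff.2 fun U => ?_
      constructor
      · intro hU
        obtain ⟨W, hWU, hW, hxW⟩ := mem_nhds_iff.1 hU
        obtain ⟨s, hs, hsW⟩ := (isOpen_iff_Y.1 hW).1 x hxW
        have hs' := hs
        rw [hxv] at hs'
        obtain ⟨n, hn⟩ := hs'
        exact ⟨n, trivial, (hat_mono (hv.1 n) hn).trans (hsW.trans hWU)⟩
      · rintro ⟨n, _, hn⟩
        refine Filter.mem_of_superset ((hat_open (v n)).mem_nhds ?_) hn
        show v n ∈ x.1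
        rw [hxv]
        exact ⟨n, Le.refl _⟩
    exact h.isCountablyGenerated
  · have hc : Continuous (fun c : Ca => ir d c) :=
      ⟨fun U hU => (isOpen_iff_Y.1 hU).2 d⟩
    have ho : IsOpenMap (fun c : Ca => ir d c) := by
      intro V hV
      have h1 : (fun c : Ca => ir d c) '' V = cyl d V := by
        refine Subset.antisymm ?_ ?_
        · rintro _ ⟨c, hc, rfl⟩
          exact ⟨rfl, hc⟩
        · refine Y_cases (fun x hx => absurd hx (il_cyl d V x)) (fun e c' h => ?_)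
          obtain ⟨h1, h2⟩ := (ir_cyl _ _ _ _).1 h
          exact ⟨c', h2, by rw [h1]⟩
      rw [h1]
      exact cyl_open d hV
    have h2 : Filter.map (fun c : Ca => ir d c) (nhds c) = nhds (ir d c) :=
      le_antisymm hc.continuousAt (ho.nhds_le c)
    rw [← h2]
    infer_instance

end Pool.Agent.H57BR
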