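import Pool.Agent.helper57_BR.Comb

/-!
# The first space: a non-resolvable base closed under finite intersections (seat helper57)
-/

set_option autoImplicit false

open Set TopologicalSpace

namespace Pool.Agent.H57BR

/-- the set of points -/
abbrev Pt : Type := {F : Set E // IsPt F}

/-- the point of a good line -/
def lp {ℓ : L} (h : Good ℓ) : Pt := ⟨Fil (fun n => (ℓ, n)), isPt_line h⟩

/-- the general non-resolvability statement -/
theorem nonres {Z : Type} [TopologicalSpace Z] (ι : Pt → Z) (hat : E → Set Z) (ℬ : Set (Set Z))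
    (h1 : ∀ s : E, Good s.1 → IsOpen (hat s))
    (h2 : ∀ (s : E) (x : Pt), Good s.1 → (ι x ∈ hat s ↔ s ∈ x.1))
    (h3 : ∀ U ∈ ℬ, ∀ x : Pt, ι x ∈ U → ∃ s : E, Good s.1 ∧ U = hat s) :
    ¬ ∃ 𝒞 𝒟 : Set (Set Z), 𝒞 ∪ 𝒟 = ℬ ∧ Disjoint 𝒞 𝒟 ∧ IsTopologicalBasis 𝒞 ∧
      IsTopologicalBasis 𝒟 := by
  rintro ⟨𝒞, 𝒟, hu, hd, hC, hD⟩
  -- inclusions are recognised
  have hle : ∀ s t : E, Good s.1 → Good t.1 → hat s ⊆ hat t → Le s t := by
    intro s t hs ht hst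
    refine le_of_mem ?_ ?_
    · have h4 : ι (lp (ℓ := L.cst s.1 s.2) hs) ∈ hat s := (h2 s _ hs).2 (mem_cst0 s)
      exact (h2 t _ ht).1 (hst h4)
    · have h4 : ι (lp (ℓ := L.cst s.1 (s.2 + 1)) hs) ∈ hat s := (h2 s _ hs).2 (mem_cst1 s)
      exact (h2 t _ ht).1 (hst h4)
  -- a member of one of the two parts
  have key : ∀ 𝒜 : Set (Set Z), 𝒜 ⊆ ℬ → IsTopologicalBasis 𝒜 → ∀ (x : Pt) (y : E), y ∈ x.1 →
      ∃ s : E, Good s.1 ∧ hat s ∈ 𝒜 ∧ s ∈ x.1 ∧ Le s y := by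
    intro 𝒜 hA hb x y hy
    have hg : Good y.1 := x.2.good hy
    obtain ⟨U, hU, hxU, hUy⟩ := hb.exists_subset_of_mem_open ((h2 y x hg).2 hy) (h1 y hg)
    obtain ⟨s, hs, rfl⟩ := h3 U (hA hU) x hxU
    exact ⟨s, hs, hU, (h2 s x hs).1 hxU, hle s y hs hg hUy⟩
  have hCs : 𝒞 ⊆ ℬ := hu ▸ subset_union_left
  have hDs : 𝒟 ⊆ ℬ := hu ▸ subset_union_right
  refine no_colouring (fun s => hat s ∈ 𝒞) ?_ ?_
  · intro ℓ hℓ k
    obtain ⟨s, hs, hsC, ⟨m, hm⟩, hsk⟩ := key 𝒞 hCs hC (lp hℓ) (ℓ, k) ⟨k, Le.refl _⟩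
    obtain ⟨i, hi, rfl⟩ := line_between hm hsk
    exact ⟨i, hi, hsC⟩
  · intro u hup
    by_contra hcon
    push Not at hcon
    obtain ⟨s, hs, hsD, ⟨n, hn⟩, hs0⟩ := key 𝒟 hDs hD ⟨Fil u, Or.inr ⟨u, hup, rfl⟩⟩ (u 0)
      ⟨0, Le.refl _⟩
    obtain ⟨m, _, rfl⟩ := hup.between n s hn hs0
    exact disjoint_left.1 hd (hcon m) hsD

/-- the basic sets -/
def B (s : E) : Set Pt := {x | s ∈ x.1}

/-- the topology of the first space -/
instance topPt : TopologicalSpace Pt := generateFrom (range B)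

theorem B_open (s : E) : IsOpen (B s) := isOpen_generateFrom_of_mem ⟨s, rfl⟩

theorem B_empty {s : E} (h : ¬ Good s.1) : B s = ∅ :=
  eq_empty_iff_forall_notMem.2 fun x hx => h (x.2.good hx)

theorem B_mono {s t : E} (h : Le s t) : B s ⊆ B t := fun x hx => x.2.up hx h

theorem B_basis : IsTopologicalBasis (range B) := by
  refine ⟨?_, ?_, rfl⟩
  · rintro _ ⟨s, rfl⟩ _ ⟨t, rfl⟩ x ⟨hs, ht⟩
    obtain ⟨v, hv, h1, h2⟩ := x.2.down hs ht
    exact ⟨B v, ⟨v, rfl⟩, hv, subset_inter (B_mono h1) (B_mono h2)⟩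
  · refine eq_univ_iff_forall.2 fun x => ?_
    obtain ⟨v, _, hv⟩ := x.2.exists_desc
    exact ⟨B (v 0), ⟨v 0, rfl⟩, by show v 0 ∈ x.1; rw [hv]; exact ⟨0, Le.refl _⟩⟩

theorem B_clopen (s : E) : IsClopen (B s) := by
  refine ⟨?_, B_open s⟩
  by_cases hs : Good s.1
  · rw [← isOpen_compl_iff, isOpen_iff_forall_mem_open]
    intro x hx
    obtain ⟨t, ht, hts⟩ := D_sep x.2 hs hx
    refine ⟨B t, fun y hy hy' => ?_, B_open t, ht⟩
    obtain ⟨v, hv, h1, h2⟩ := y.2.down hy hy'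
    have hg := y.2.good hv
    obtain ⟨d, hd⟩ := D_nonempty v
    have h3 : d ∈ D t ∩ D s := ⟨D_mono hg h1 hd, D_mono hg h2 hd⟩
    rw [hts] at h3
    exact h3
  · rw [B_empty hs]
    exact isClosed_empty

theorem Pt_sep {x y : Pt} (h : x ≠ y) : ∃ s : E, s ∈ x.1 ∧ s ∉ y.1 := by
  by_contra hcon
  push Not at hcon
  exact h (Subtype.ext (pt_inj x.2 y.2 hcon))

instance t2Pt : T2Space Pt := by
  refine ⟨fun x y h => ?_⟩
  obtain ⟨s, hs, hs'⟩ := Pt_sep h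
  exact ⟨B s, (B s)ᶜ, B_open s, (B_clopen s).1.isOpen_compl, hs, hs', disjoint_compl_right⟩

theorem Pt_crowded (x : Pt) : ¬ IsOpen {x} := by
  intro h
  obtain ⟨_, ⟨s, rfl⟩, hx, hs⟩ := B_basis.exists_subset_of_mem_open (mem_singleton x) h
  have hg : Good s.1 := x.2.good hx
  have h1 : lp (ℓ := L.cst s.1 s.2) hg = x := hs (mem_cst0 s)
  have h2 : lp (ℓ := L.cst s.1 (s.2 + 1)) hg = x := hs (mem_cst1 s)
  exact cst_ne s hg (congrArg Subtype.val (h1.trans h2.symm))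

theorem B_inter_aux {s t : E} (h : ∃ k, t.2 ≤ k ∧ Le (t.1, k) s) :
    B s ∩ B t ∈ range B := by
  classical
  obtain ⟨h1, h2⟩ := Nat.find_spec h
  set k := Nat.find h with hk
  refine ⟨(t.1, k), Subset.antisymm ?_ ?_⟩
  · exact subset_inter (B_mono h2) (B_mono (le_line _ h1))
  · rintro x ⟨hs, ht⟩
    obtain ⟨v, hv, h3, h4⟩ := x.2.down hs ht
    have hg := x.2.good hv
    rcases meet h3 h4 with ⟨j, hj, h5, h6⟩ | ⟨j, hj, h5, h6⟩
    · exact x.2.up hv (Le.trans hg h6 (le_line _ (Nat.find_min' h ⟨hj, h5⟩)))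
    · -- both lines coincide
      have h7 : s.1 = t.1 := by
        rcases h5.sub with h8 | h8
        · exact h8.symm
        · rcases h2.sub with h9 | h9
          · exact h9
          · exact absurd (sub_trans h8 h9) (sub_irrefl _)
      obtain ⟨a, ha, h8⟩ := h5
      rw [h7] at h8
      have h9 : a = j := h8.same
      subst h9
      have h10 : Nat.find h ≤ a := Nat.find_min' h ⟨ha, ⟨a, hj, by rw [h7]; exact Anc.refl _⟩⟩
      have h11 : Le v (t.1, a) := by rw [← h7]; exact h6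
      exact x.2.up hv (Le.trans hg h11 (le_line _ h10))

theorem B_inter (s t : E) : B s ∩ B t ∈ range B := by
  by_cases h : ∃ k, t.2 ≤ k ∧ Le (t.1, k) s
  · exact B_inter_aux h
  · by_cases h' : ∃ k, s.2 ≤ k ∧ Le (s.1, k) t
    · rw [inter_comm]
      exact B_inter_aux h'
    · refine ⟨(bad, 0), ?_⟩
      rw [B_empty (s := (bad, 0)) not_good_bad]
      symm
      refine eq_empty_iff_forall_notMem.2 fun x ⟨hs, ht⟩ => ?_
      obtain ⟨v, hv, h3, h4⟩ := x.2.down hs ht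
      rcases meet h3 h4 with ⟨j, hj, h5, _⟩ | ⟨j, hj, h5, _⟩
      · exact h ⟨j, hj, h5⟩
      · exact h' ⟨j, hj, h5⟩

theorem B_nonres : ¬ ∃ 𝒞 𝒟 : Set (Set Pt), 𝒞 ∪ 𝒟 = range B ∧ Disjoint 𝒞 𝒟 ∧
    IsTopologicalBasis 𝒞 ∧ IsTopologicalBasis 𝒟 := by
  refine nonres id B (range B) (fun s _ => B_open s) (fun _ _ _ => Iff.rfl) ?_
  rintro _ ⟨s, rfl⟩ x hx
  exact ⟨s, x.2.good hx, rfl⟩

instance firstPt : FirstCountableTopology Pt := by
  refine ⟨fun x => ?_⟩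
  obtain ⟨v, hv, hxv⟩ := x.2.exists_desc
  have h : (nhds x).HasBasis (fun _ : ℕ => True) (fun n => B (v n)) := by
    refine Filter.hasBasis_iff.2 fun U => ?_
    constructor
    · intro hU
      obtain ⟨_, ⟨s, rfl⟩, hs, hsU⟩ := B_basis.mem_nhds_iff.1 hU
      have hs' : s ∈ x.1 := hs
      rw [hxv] at hs'
      obtain ⟨n, hn⟩ := hs'
      exact ⟨n, trivial, (B_mono hn).trans hsU⟩
    · rintro ⟨n, _, hn⟩
      refine Filter.mem_of_superset ((B_open (v n)).mem_nhds ?_) hn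
      show v n ∈ x.1
      rw [hxv]
      exact ⟨n, Le.refl _⟩
  exact h.isCountablyGenerated

end Pool.Agent.H57BR
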